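import Pool.Agent.TH63.KQ.Embed

/-!
# Systems of equations with determinant prime to `p` over groups whose finite-`p` residual is abelian

If the intersection of all normal subgroups of `p`-power index of `A` is abelian, then every system
of `n` equations in `n` unknowns over `A` with `det M ≢ 0 (mod p)` has a solution in an overgroup.
-/

set_option autoImplicit false

open Monoid

namespace Pool.Agent.Results.MP_cb60a4_al.AbelianPResidual

variable {A : Type} [Group A] {n : ℕ}

/-- the exponent sum of `x_j` in an element of `A * F(x_0, ..., x_(n-1))` -/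
def expSum (j : Fin n) (w : Coprod A (FreeGroup (Fin n))) : ℤ :=
  Multiplicative.toAdd (Coprod.lift (1 : A →* Multiplicative ℤ)
    (FreeGroup.lift fun k : Fin n => if k = j then Multiplicative.ofAdd (1 : ℤ) else 1) w)

/-- `x` lies in every normal subgroup of `A` whose index is a power of `p` -/
def InResidual (p : ℕ) (x : A) : Prop :=
  ∀ N : Subgroup A, N.Normal → (∃ m : ℕ, N.index = p ^ m) → x ∈ N

/-- Let `p` be a prime and `A` a group in which any two elements of the intersection of all normal
subgroups of `p`-power index commute.  Then every system `w_i = 1` (`i < n`) of `n` equations in `n`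
unknowns over `A` whose exponent-sum matrix has determinant not divisible by `p` has a solution in
some overgroup of `A`. -/
theorem result (p : ℕ) (hp : p.Prime) (A : Type) [Group A]
    (hA : ∀ x y : A, InResidual p x → InResidual p y → x * y = y * x)
    (n : ℕ) (w : Fin n → Coprod A (FreeGroup (Fin n)))
    (hdet : ¬ (p : ℤ) ∣ (Matrix.of fun i j : Fin n => expSum j (w i)).det) :
    ∃ (G : Type) (_ : Group G) (φ : A →* G) (x : Fin n → G), Function.Injective φ ∧
      ∀ i, Coprod.lift φ (FreeGroup.lift x) (w i) = 1 := by
  let R : Subgroup A :=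
    { carrier := {x | InResidual p x}
      mul_mem' := fun hx hy N h1 h2 => N.mul_mem (hx N h1 h2) (hy N h1 h2)
      one_mem' := fun N _ _ => N.one_mem
      inv_mem' := fun hx N h1 h2 => N.inv_mem (hx N h1 h2) }
  have hres : ∀ x, x ∉ R → ∃ N : Subgroup A, N.Normal ∧ R ≤ N ∧ (∃ m : ℕ, N.index = p ^ m) ∧
      x ∉ N := by
    intro x hx
    have h1 : ¬ InResidual p x := hx
    unfold InResidual at h1
    push Not at h1
    obtain ⟨N, h2, h3, h4⟩ := h1
    exact ⟨N, h2, fun y hy => hy N h2 h3, h3, h4⟩
  have hcop : IsCoprime (Matrix.of fun i j : Fin n => Multiplicative.toAdd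
      (Pool.Agent.TH63.KQ.eta A n i (w j))).det (p : ℤ) := by
    have h1 : (Matrix.of fun i j : Fin n => Multiplicative.toAdd
        (Pool.Agent.TH63.KQ.eta A n i (w j))) =
        (Matrix.of fun i j : Fin n => expSum j (w i)).transpose := by
      ext i j
      rfl
    rw [h1, Matrix.det_transpose]
    exact ((Nat.prime_iff_prime_int.1 hp).coprime_iff_not_dvd.2 hdet).symm
  have hinj := Pool.Agent.TH63.KQ.residual A R (fun x hx y hy => hA x y hx hy) p hp hres n w hcop
  refine ⟨_, inferInstance, _, fun i =>
    QuotientGroup.mk' (Subgroup.normalClosure (Set.range w)) (Coprod.inr (FreeGroup.of i)),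
    hinj, fun i => ?_⟩
  have h1 : Coprod.lift ((QuotientGroup.mk' (Subgroup.normalClosure (Set.range w))).comp
      (Coprod.inl : A →* Coprod A (FreeGroup (Fin n)))) (FreeGroup.lift fun i =>
      QuotientGroup.mk' (Subgroup.normalClosure (Set.range w)) (Coprod.inr (FreeGroup.of i))) =
      QuotientGroup.mk' (Subgroup.normalClosure (Set.range w)) := by
    apply Coprod.hom_ext
    · refine MonoidHom.ext fun u => ?_
      simp
    · refine FreeGroup.ext_hom _ _ fun k => ?_
      simp
  rw [h1]
  exact (QuotientGroup.eq_one_iff _).2 (Subgroup.subset_normalClosure ⟨i, rfl⟩)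

end Pool.Agent.Results.MP_cb60a4_al.AbelianPResidual
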